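import Mathlib
import Pool.Agent.N290.RJ.Stm
import Pool.Agent.N755.RI.S1

/-!
# RJ/S1 (helper755 for helper290): one Moebius step, all dimensions, with the estimate of `dd v'`
-/

set_option autoImplicit false

open Complex MeasureTheory Set Filter Topology

namespace Pool.Agent.N755.RJ

open Pool.Agent.N290.RJ Pool.Agent.N755.RI

variable {d : ℕ}

/-- the identity for the holomorphic derivative -/
theorem ident2 {v Q Qc dv dQ cb D i s : ℂ} (hD : D = 1 + Qc * v * s) (hDi : D * i = 1) :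
    ((dv + dQ) * D - (v + Q) * ((cb * v + Qc * dv) * s)) * i ^ 2 =
    ((1 - Q * Qc * s) * i ^ 2) * dv + dQ * i - (v + Q) * v * s * i ^ 2 * cb := by
  linear_combination (dv * i ^ 2) * hD + (dQ * i) * hDi

/-- the estimate of the holomorphic derivative, for complex numbers -/
theorem numb2 (C₁ p : ℝ) {v P1 G a b dv bP dP Q D : ℂ} (hC : 0 < C₁) (hv : ‖v‖ ≤ 256 * C₁)
    (hP1 : ‖P1‖ ≤ C₁) (hG : ‖G‖ ≤ 2) (hbP : ‖bP‖ ≤ p) (hdP : ‖dP‖ ≤ p)
    (hQ : Q = P1 * starRingEnd ℂ G)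
    (hD : D = 1 + starRingEnd ℂ Q * v / (256 * C₁ : ℂ) ^ 2) :
    ‖((dv + dP * starRingEnd ℂ G) * D -
      (v + Q) * ((starRingEnd ℂ (bP * starRingEnd ℂ G + P1 * (starRingEnd ℂ b - starRingEnd ℂ a)) *
        v + starRingEnd ℂ Q * dv) / (256 * C₁ : ℂ) ^ 2)) / D ^ 2‖ ≤
      (1 + ‖G‖ / 64) * ‖dv‖ + 4 * p * ‖G‖ + 2 * C₁ * ‖b - a‖ := by
  obtain ⟨R, hR⟩ : ∃ R : ℝ, R = 256 * C₁ := ⟨_, rfl⟩
  have hR0 : 0 < R := by rw [hR]; positivity
  have hRc : (256 * C₁ : ℂ) = (R : ℂ) := by rw [hR]; push_cast; ring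
  have hRc0 : (R : ℂ) ≠ 0 := by exact_mod_cast hR0.ne'
  rw [hRc] at hD ⊢
  rw [← hR] at hv
  have hp : 0 ≤ p := (norm_nonneg _).trans hbP
  have hQn : ‖Q‖ ≤ C₁ * ‖G‖ := by
    rw [hQ, norm_mul, RCLike.norm_conj]
    exact mul_le_mul_of_nonneg_right hP1 (norm_nonneg _)
  obtain ⟨q, hq⟩ : ∃ q : ℝ, q = ‖Q‖ / R := ⟨_, rfl⟩
  have hq0 : 0 ≤ q := by rw [hq]; positivity
  have hqQ : ‖Q‖ = q * R := by rw [hq]; field_simp
  have hqd : q ≤ ‖G‖ / 256 := by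
    rw [hq, div_le_div_iff₀ hR0 (by norm_num), hR]
    nlinarith
  have hq1 : q ≤ 1 / 128 := by linarith
  have hD1 : ‖D - 1‖ ≤ q := by
    have e : D - 1 = starRingEnd ℂ Q * v / (R : ℂ) ^ 2 := by rw [hD]; ring
    rw [e, norm_div, norm_mul, RCLike.norm_conj, norm_pow, Complex.norm_real,
      Real.norm_of_nonneg hR0.le, div_le_iff₀ (by positivity), hqQ]
    have : q * R * ‖v‖ ≤ q * R * R := mul_le_mul_of_nonneg_left hv (by positivity)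
    linarith
  have hD0 : D ≠ 0 := by
    intro h
    rw [h, zero_sub, norm_neg, norm_one] at hD1
    linarith
  obtain ⟨i, hi⟩ : ∃ i : ℂ, i = D⁻¹ := ⟨_, rfl⟩
  have hDi : D * i = 1 := by rw [hi]; exact mul_inv_cancel₀ hD0
  obtain ⟨s, hs⟩ : ∃ s : ℂ, s = ((R : ℂ) ^ 2)⁻¹ := ⟨_, rfl⟩
  have hDs : D = 1 + starRingEnd ℂ Q * v * s := by rw [hD, hs, div_eq_mul_inv]
  have hQs : Q * starRingEnd ℂ Q * s = (q : ℂ) ^ 2 := by
    rw [Complex.mul_conj, Complex.normSq_eq_norm_sq, hqQ, hs]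
    push_cast
    field_simp
  obtain ⟨b1, b2, b3, b4⟩ := bnd hq0 hq1 hD1 hDi
  have hi2 : ‖i‖ ≤ 2 := by
    have h1 := norm_add_le (i - 1) 1
    rw [sub_add_cancel, norm_one] at h1
    linarith
  have e1 : ((dv + dP * starRingEnd ℂ G) * D -
      (v + Q) * ((starRingEnd ℂ (bP * starRingEnd ℂ G + P1 * (starRingEnd ℂ b - starRingEnd ℂ a)) *
        v + starRingEnd ℂ Q * dv) / (R : ℂ) ^ 2)) / D ^ 2 =
      ((dv + dP * starRingEnd ℂ G) * D -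
      (v + Q) * ((starRingEnd ℂ (bP * starRingEnd ℂ G + P1 * (starRingEnd ℂ b - starRingEnd ℂ a)) *
        v + starRingEnd ℂ Q * dv) * s)) * i ^ 2 := by
    rw [hi, hs, inv_pow, div_eq_mul_inv, div_eq_mul_inv]
  rw [e1, ident2 hDs hDi, hQs]
  have c1 : ‖(1 - (q : ℂ) ^ 2) * i ^ 2 * dv‖ ≤ (1 + 4 * q) * ‖dv‖ := by
    rw [norm_mul]
    exact mul_le_mul_of_nonneg_right b1 (norm_nonneg _)
  have c2 : ‖dP * starRingEnd ℂ G * i‖ ≤ p * ‖G‖ * 2 := by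
    rw [norm_mul, norm_mul, RCLike.norm_conj]
    exact mul_le_mul (mul_le_mul_of_nonneg_right hdP (norm_nonneg _)) hi2 (norm_nonneg _)
      (by positivity)
  have c3 : ‖bP * starRingEnd ℂ G + P1 * (starRingEnd ℂ b - starRingEnd ℂ a)‖ ≤
      p * ‖G‖ + C₁ * ‖b - a‖ := by
    refine (norm_add_le _ _).trans ?_
    rw [norm_mul, norm_mul, RCLike.norm_conj, ← map_sub, RCLike.norm_conj]
    exact add_le_add (mul_le_mul_of_nonneg_right hbP (norm_nonneg _))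
      (mul_le_mul_of_nonneg_right hP1 (norm_nonneg _))
  have c7 : ‖(v + Q) * v * s * i ^ 2 *
      starRingEnd ℂ (bP * starRingEnd ℂ G + P1 * (starRingEnd ℂ b - starRingEnd ℂ a))‖ ≤
      2 * (p * ‖G‖ + C₁ * ‖b - a‖) := by
    rw [norm_mul]
    have d1 : ‖(v + Q) * v * s * i ^ 2‖ ≤ 2 := by
      have hsn : ‖s‖ = (R ^ 2)⁻¹ := by
        rw [hs, norm_inv, norm_pow, Complex.norm_real, Real.norm_of_nonneg hR0.le]
      rw [norm_mul, norm_mul, norm_mul, norm_pow, hsn]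
      have d2 : ‖v + Q‖ ≤ R * (1 + q) := by
        refine (norm_add_le _ _).trans ?_
        rw [hqQ]
        linarith
      have d3 : ‖v + Q‖ * ‖v‖ ≤ R * (1 + q) * R := mul_le_mul d2 hv (norm_nonneg _) (by positivity)
      have d4 : ‖v + Q‖ * ‖v‖ * (R ^ 2)⁻¹ ≤ 1 + q := by
        have d5 := mul_le_mul_of_nonneg_right d3 (by positivity : (0 : ℝ) ≤ (R ^ 2)⁻¹)
        refine d5.trans (le_of_eq ?_)
        field_simp
      calc ‖v + Q‖ * ‖v‖ * (R ^ 2)⁻¹ * ‖i‖ ^ 2 ≤ (1 + q) * ‖i‖ ^ 2 :=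
            mul_le_mul_of_nonneg_right d4 (by positivity)
        _ ≤ 2 := by linarith
    rw [RCLike.norm_conj]
    exact mul_le_mul d1 c3 (norm_nonneg _) (by norm_num)
  have t1 : (1 + 4 * q) * ‖dv‖ ≤ (1 + ‖G‖ / 64) * ‖dv‖ :=
    mul_le_mul_of_nonneg_right (by linarith) (norm_nonneg _)
  have n1 := norm_sub_le ((1 - (q : ℂ) ^ 2) * i ^ 2 * dv + dP * starRingEnd ℂ G * i)
    ((v + Q) * v * s * i ^ 2 *
      starRingEnd ℂ (bP * starRingEnd ℂ G + P1 * (starRingEnd ℂ b - starRingEnd ℂ a)))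
  have n2 := norm_add_le ((1 - (q : ℂ) ^ 2) * i ^ 2 * dv) (dP * starRingEnd ℂ G * i)
  linarith

/-! ### Calculus -/

theorem dirE {γ : E d → ℂ} {z : E d} (h : DifferentiableAt ℝ γ z) (η : E d) :
    HasDerivAt (fun t : ℝ => γ (z + t • η)) (fderiv ℝ γ z η) 0 := by
  have h1 : HasDerivAt (fun t : ℝ => z + t • η) η 0 := by
    simpa using ((hasDerivAt_id (0 : ℝ)).smul_const η).const_add z
  have h2 : HasFDerivAt γ (fderiv ℝ γ z) (z + (0 : ℝ) • η) := by simpa using h.hasFDerivAt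
  exact h2.comp_hasDerivAt 0 h1

/-- the derivative in a direction -/
theorem dirDE {C₁ : ℝ} {v P1 F0 F1 Q v' : E d → ℂ} {z : E d} (hv : DifferentiableAt ℝ v z)
    (hP : DifferentiableAt ℝ P1 z) (hF0 : DifferentiableAt ℂ F0 z) (hF1 : DifferentiableAt ℂ F1 z)
    (hQ : ∀ w, Q w = P1 w * starRingEnd ℂ (F1 w - F0 w))
    (hv' : ∀ w, v' w = (v w + Q w) / (1 + starRingEnd ℂ (Q w) * v w / (256 * C₁) ^ 2))
    (hD : 1 + starRingEnd ℂ (Q z) * v z / (256 * C₁) ^ 2 ≠ 0) (η : E d) (Qη : ℂ)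
    (hQη : Qη = fderiv ℝ P1 z η * starRingEnd ℂ (F1 z - F0 z) +
      P1 z * starRingEnd ℂ (fderiv ℂ F1 z η - fderiv ℂ F0 z η)) :
    fderiv ℝ v' z η = ((fderiv ℝ v z η + Qη) * (1 + starRingEnd ℂ (Q z) * v z / (256 * C₁) ^ 2) -
      (v z + Q z) * ((starRingEnd ℂ Qη * v z + starRingEnd ℂ (Q z) * fderiv ℝ v z η) /
        (256 * C₁) ^ 2)) / (1 + starRingEnd ℂ (Q z) * v z / (256 * C₁) ^ 2) ^ 2 := by
  have r0 := hF0.restrictScalars ℝ
  have r1 := hF1.restrictScalars ℝ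
  have e0 : fderiv ℝ F0 z η = fderiv ℂ F0 z η := by
    rw [hF0.fderiv_restrictScalars ℝ]
    rfl
  have e1 : fderiv ℝ F1 z η = fderiv ℂ F1 z η := by
    rw [hF1.fderiv_restrictScalars ℝ]
    rfl
  have hQf : Q = fun w => P1 w * starRingEnd ℂ (F1 w - F0 w) := funext hQ
  have hvf : v' = fun w => (v w + Q w) / (1 + starRingEnd ℂ (Q w) * v w / (256 * C₁) ^ 2) :=
    funext hv'
  have hcd : ∀ {γ : E d → ℂ}, DifferentiableAt ℝ γ z →
      DifferentiableAt ℝ (fun w => starRingEnd ℂ (γ w)) z := fun {γ} h =>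
    (Complex.conjCLE : ℂ →L[ℝ] ℂ).differentiableAt.comp z h
  have hQd : DifferentiableAt ℝ Q z := by
    rw [hQf]
    exact hP.mul (hcd (r1.sub r0))
  have hDd : DifferentiableAt ℝ (fun w => 1 + starRingEnd ℂ (Q w) * v w / (256 * C₁) ^ 2) z := by
    have h1 := ((hcd hQd).mul hv).mul_const (((256 * C₁ : ℂ) ^ 2)⁻¹)
    have h2 := h1.const_add (1 : ℂ)
    refine h2.congr_of_eventuallyEq (Eventually.of_forall fun w => ?_)
    simp only [Pi.mul_apply]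
    rw [div_eq_mul_inv]
  have hvd : DifferentiableAt ℝ v' z := by
    rw [hvf]
    have h1 := (hv.add hQd).mul (hDd.inv hD)
    refine h1.congr_of_eventuallyEq (Eventually.of_forall fun w => ?_)
    simp only [Pi.mul_apply, Pi.add_apply, Pi.inv_apply]
    rw [div_eq_mul_inv]
  have k1 := dirE hv η
  have k2 := dirE hP η
  have k3 := dirE r0 η
  have k4 := dirE r1 η
  rw [e0] at k3
  rw [e1] at k4
  have k5 : HasDerivAt (fun t : ℝ => Q (z + t • η)) Qη 0 := by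
    have h1 := k2.fun_mul (conjd (k4.fun_sub k3))
    simp only [zero_smul, add_zero] at h1
    rw [hQη]
    refine h1.congr_of_eventuallyEq (Eventually.of_forall fun t => ?_)
    exact hQ _
  have k6 := conjd k5
  have k7 : HasDerivAt (fun t : ℝ => 1 + starRingEnd ℂ (Q (z + t • η)) * v (z + t • η) /
      (256 * C₁) ^ 2) ((starRingEnd ℂ Qη * v z + starRingEnd ℂ (Q z) * fderiv ℝ v z η) /
        (256 * C₁) ^ 2) 0 := by
    have h1 := ((k6.fun_mul k1).div_const ((256 * C₁ : ℂ) ^ 2)).const_add (1 : ℂ)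
    simp only [zero_smul, add_zero] at h1
    exact h1
  have k8 := (k1.fun_add k5).fun_div k7 (by simpa using hD)
  simp only [zero_smul, add_zero, Pi.add_apply] at k8
  have k9 := dirE hvd η
  have k10 : HasDerivAt (fun t : ℝ => v' (z + t • η)) (((fderiv ℝ v z η + Qη) *
      (1 + starRingEnd ℂ (Q z) * v z / (256 * C₁) ^ 2) -
      (v z + Q z) * ((starRingEnd ℂ Qη * v z + starRingEnd ℂ (Q z) * fderiv ℝ v z η) /
        (256 * C₁) ^ 2)) / (1 + starRingEnd ℂ (Q z) * v z / (256 * C₁) ^ 2) ^ 2) 0 := by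
    refine k8.congr_of_eventuallyEq (Eventually.of_forall fun t => ?_)
    exact hv' _
  exact k9.unique k10

theorem S1 (d : ℕ) : Pool.Agent.N290.RJ.S1 d := by
  intro C₁ p v P0 P1 F0 F1 z ξ hC hv hP1d hF0 hF1 hvn hP0 hP1 hG hp1 hp2 Q v' hQ hv'
  obtain ⟨bP, hbP⟩ : ∃ bP, bP = db P1 z ξ := ⟨_, rfl⟩
  obtain ⟨dP, hdP⟩ : ∃ dP, dP = dd P1 z ξ := ⟨_, rfl⟩
  have hn2 : ‖(2 : ℂ)‖ = 2 := by simp
  have hbPn : ‖bP‖ ≤ p := by
    rw [hbP]
    unfold db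
    rw [norm_div, hn2, div_le_iff₀ two_pos]
    refine (norm_add_le _ _).trans ?_
    rw [norm_mul, Complex.norm_I, one_mul]
    linarith
  have hdPn : ‖dP‖ ≤ p := by
    rw [hdP]
    unfold dd
    rw [norm_div, hn2, div_le_iff₀ two_pos]
    refine (norm_sub_le _ _).trans ?_
    rw [norm_mul, Complex.norm_I, one_mul]
    linarith
  obtain ⟨h1, h2, h3⟩ := numb C₁ p (bv := db v z ξ) (a := fderiv ℂ F0 z ξ) (b := fderiv ℂ F1 z ξ)
    hC hvn hP0 hP1 hG hbPn hdPn (hQ z) rfl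
  rw [← hv' z] at h1
  have h4 := numb2 C₁ p (dv := dd v z ξ) (a := fderiv ℂ F0 z ξ) (b := fderiv ℂ F1 z ξ)
    hC hvn hP1 hG hbPn hdPn (hQ z) rfl
  have hI0 : fderiv ℂ F0 z (I • ξ) = I * fderiv ℂ F0 z ξ := by rw [map_smul, smul_eq_mul]
  have hI1 : fderiv ℂ F1 z (I • ξ) = I * fderiv ℂ F1 z ξ := by rw [map_smul, smul_eq_mul]
  have g1 := dirDE hv hP1d hF0 hF1 hQ hv' h2 ξ _ rfl
  have g2 := dirDE hv hP1d hF0 hF1 hQ hv' h2 (I • ξ) _ rfl
  rw [hI0, hI1] at g2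
  have key : db v' z ξ = ((db v z ξ + (bP * starRingEnd ℂ (F1 z - F0 z) +
      P1 z * (starRingEnd ℂ (fderiv ℂ F1 z ξ) - starRingEnd ℂ (fderiv ℂ F0 z ξ)))) *
      (1 + starRingEnd ℂ (Q z) * v z / (256 * C₁ : ℂ) ^ 2) -
      (v z + Q z) * ((starRingEnd ℂ (dP * starRingEnd ℂ (F1 z - F0 z)) * v z +
        starRingEnd ℂ (Q z) * db v z ξ) / (256 * C₁ : ℂ) ^ 2)) /
      (1 + starRingEnd ℂ (Q z) * v z / (256 * C₁ : ℂ) ^ 2) ^ 2 := by
    have hdb : db v' z ξ = (fderiv ℝ v' z ξ + I * fderiv ℝ v' z (I • ξ)) / 2 := rfl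
    rw [hdb, g1, g2, hbP, hdP]
    unfold db dd
    simp only [map_add, map_sub, map_mul, map_div₀, Complex.conj_I, Complex.conj_conj, map_ofNat, map_neg]
    generalize (1 + starRingEnd ℂ (Q z) * v z / (256 * C₁ : ℂ) ^ 2) = D
    linear_combination (-(P1 z * (starRingEnd ℂ (fderiv ℂ F1 z ξ) - starRingEnd ℂ (fderiv ℂ F0 z ξ)) *
      D * (D ^ 2)⁻¹) / 2 - (v z + Q z) * v z * (((256 * C₁ : ℂ) ^ 2)⁻¹) * (D ^ 2)⁻¹ *
      starRingEnd ℂ (P1 z) * (fderiv ℂ F1 z ξ - fderiv ℂ F0 z ξ) / 2) * Complex.I_sq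
  have key2 : dd v' z ξ = ((dd v z ξ + dP * starRingEnd ℂ (F1 z - F0 z)) *
      (1 + starRingEnd ℂ (Q z) * v z / (256 * C₁ : ℂ) ^ 2) -
      (v z + Q z) * ((starRingEnd ℂ (bP * starRingEnd ℂ (F1 z - F0 z) +
        P1 z * (starRingEnd ℂ (fderiv ℂ F1 z ξ) - starRingEnd ℂ (fderiv ℂ F0 z ξ))) * v z +
        starRingEnd ℂ (Q z) * dd v z ξ) / (256 * C₁ : ℂ) ^ 2)) /
      (1 + starRingEnd ℂ (Q z) * v z / (256 * C₁ : ℂ) ^ 2) ^ 2 := by
    have hdd : dd v' z ξ = (fderiv ℝ v' z ξ - I * fderiv ℝ v' z (I • ξ)) / 2 := rfl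
    rw [hdd, g1, g2, hbP, hdP]
    unfold db dd
    simp only [map_add, map_sub, map_mul, map_div₀, Complex.conj_I, Complex.conj_conj, map_ofNat, map_neg]
    generalize (1 + starRingEnd ℂ (Q z) * v z / (256 * C₁ : ℂ) ^ 2) = D
    linear_combination ((P1 z * (starRingEnd ℂ (fderiv ℂ F1 z ξ) - starRingEnd ℂ (fderiv ℂ F0 z ξ)) *
      D * (D ^ 2)⁻¹) / 2 + (v z + Q z) * v z * (((256 * C₁ : ℂ) ^ 2)⁻¹) * (D ^ 2)⁻¹ *
      starRingEnd ℂ (P1 z) * (fderiv ℂ F1 z ξ - fderiv ℂ F0 z ξ) / 2) * Complex.I_sq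
  refine ⟨h1, h2, ?_, ?_⟩
  · rw [key]
    exact h3
  · rw [key2]
    exact h4

end Pool.Agent.N755.RJ
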